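import Mathlib
import Pool.Agent.H78.Ft.Part3

set_option autoImplicit false

namespace Pool.Agent.Results.MP_7a0e32_co.FortNumber

open Pool.Agent.R188.ZF Pool.Agent.H78.Ft Finset

/-- The fort number `ft(G)`: the maximum number of pairwise disjoint forts. -/
noncomputable def fortNumber {V : Type*} (G : SimpleGraph V) : ℕ :=
  sSup {k | ∃ F : Fin k → Finset V, (∀ i, IsFort G (F i)) ∧ ∀ i j, i ≠ j → Disjoint (F i) (F j)}

theorem le_fortNumber {V : Type*} [Fintype V] {G : SimpleGraph V} {k : ℕ} (F : Fin k → Finset V)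
    (h1 : ∀ i, IsFort G (F i)) (h2 : ∀ i j, i ≠ j → Disjoint (F i) (F j)) :
    k ≤ fortNumber G := by
  classical
  unfold fortNumber
  refine le_csSup ⟨Fintype.card (Finset V), ?_⟩ ⟨F, h1, h2⟩
  rintro m ⟨F', g1, g2⟩
  have hinj : Function.Injective F' := by
    intro i j hij
    by_contra hne
    have hd := g2 i j hne
    rw [hij, disjoint_self] at hd
    exact (g1 j).1.ne_empty hd
  have := Fintype.card_le_of_injective F' hinj
  simpa using this

/-- The two classes of vertices of a gadget. -/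
def cl (c : Fin 2) (k : Fin 8) : Bool :=
  if c = 0 then decide (k ∈ ([1, 2, 4, 7] : List (Fin 8)))
  else decide (k ∈ ([0, 3, 5, 6] : List (Fin 8)))

/-- The twelve forts. -/
def fort (q : Gd × Fin 2) : Finset V51 :=
  (Finset.univ.filter (fun k => cl q.2 k = true)).image (fun k => Sum.inr (q.1, k))

theorem mem_fort {q : Gd × Fin 2} {w : V51} :
    w ∈ fort q ↔ ∃ k, cl q.2 k = true ∧ Sum.inr (q.1, k) = w := by
  simp [fort]

theorem cl_in : ∀ (c : Fin 2) (l : Fin 8), cl c l = false →
    (∀ k, cl c k = true → edgeB l k = false) ∨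
      ∃ k k', k ≠ k' ∧ cl c k = true ∧ cl c k' = true ∧ edgeB l k = true ∧ edgeB l k' = true := by
  decide

theorem cl_out : ∀ (i : Fin 3) (g : Gd) (c : Fin 2),
    (∀ k, cl c k = true → toC i g k = false) ∨
      ∃ k k', k ≠ k' ∧ cl c k = true ∧ cl c k' = true ∧ toC i g k = true ∧ toC i g k' = true := by
  decide

theorem fort_isFort (q : Gd × Fin 2) : IsFort G51 (fort q) := by
  obtain ⟨g, c⟩ := q
  constructor
  · have h : ∀ c : Fin 2, ∃ k, cl c k = true := by decide
    obtain ⟨k, hk⟩ := h c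
    exact ⟨Sum.inr (g, k), mem_fort.2 ⟨k, hk, rfl⟩⟩
  · intro v hv hex
    have key : ∀ (f : Fin 8 → Bool), (∀ k, G51.Adj v (Sum.inr (g, k)) ↔ f k = true) →
        ((∀ k, cl c k = true → f k = false) ∨ ∃ k k', k ≠ k' ∧ cl c k = true ∧ cl c k' = true ∧
          f k = true ∧ f k' = true) → False := by
      intro f hf hor
      obtain ⟨w, ⟨hw, ha⟩, hu⟩ := hex
      obtain ⟨k, hk, rfl⟩ := mem_fort.1 hw
      rcases hor with h | ⟨k1, k2, hne, h1, h2, h3, h4⟩
      · have h5 := h k hk
        rw [(hf k).1 ha] at h5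
        exact Bool.noConfusion h5
      · have e1 := hu (Sum.inr (g, k1)) ⟨mem_fort.2 ⟨k1, h1, rfl⟩, (hf k1).2 h3⟩
        have e2 := hu (Sum.inr (g, k2)) ⟨mem_fort.2 ⟨k2, h2, rfl⟩, (hf k2).2 h4⟩
        apply hne
        have e3 := e1.trans e2.symm
        exact (Prod.mk.inj (Sum.inr.inj e3)).2
    match v with
    | Sum.inl i => exact key (fun k => toC i g k) (fun k => Iff.rfl) (cl_out i g c)
    | Sum.inr (h, l) =>
      by_cases e : h = g
      · subst e
        have hl : cl c l = false := by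
          by_contra hne
          exact hv (mem_fort.2 ⟨l, by simpa using hne, rfl⟩)
        refine key (fun k => edgeB l k) (fun k => ?_) (cl_in c l hl)
        show (decide (h = h) && edgeB l k) = true ↔ edgeB l k = true
        simp
      · refine key (fun _ => false) (fun k => ?_) (Or.inl (fun _ _ => rfl))
        show (decide (h = g) && edgeB l k) = true ↔ false = true
        simp [e]

theorem fort_disjoint (p q : Gd × Fin 2) (h : p ≠ q) : Disjoint (fort p) (fort q) := by
  rw [Finset.disjoint_left]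
  intro w h1 h2
  obtain ⟨k, hk, rfl⟩ := mem_fort.1 h1
  obtain ⟨l, hl, e⟩ := mem_fort.1 h2
  have e2 := Prod.mk.inj (Sum.inr.inj e)
  have e3 : l = k := e2.2
  subst e3
  have hc : ∀ (c d : Fin 2) (k : Fin 8), cl c k = true → cl d k = true → c = d := by decide
  exact h (Prod.ext e2.1.symm (hc _ _ _ hk hl))

theorem ft_ge : 12 ≤ fortNumber G51 := by
  let e : Gd × Fin 2 ≃ Fin 12 := Fintype.equivFinOfCardEq (by simp)
  exact le_fortNumber (fun i => fort (e.symm i)) (fun i => fort_isFort _)
    (fun i j hij => fort_disjoint _ _ (fun h => hij (e.symm.injective h)))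

theorem upper : maxNullity G51 ≤ 11 := by
  unfold maxNullity
  rcases Set.eq_empty_or_nonempty {k | ∃ A : Matrix V51 V51 ℝ, InS G51 A ∧ nullity A = k} with
    h | h
  · rw [h]; simp
  · refine csSup_le h ?_
    rintro k ⟨A, hA, rfl⟩
    exact nullity_le hA

theorem connected : G51.Connected := by
  have hp : ∀ k : Fin 8, k = 1 ∨ edgeB 1 k = true ∨ (∃ j, edgeB 1 j = true ∧ edgeB j k = true) ∨
      ∃ j m, edgeB 1 j = true ∧ edgeB j m = true ∧ edgeB m k = true := by decide
  have hadj : ∀ (g : Gd) (k l : Fin 8), edgeB k l = true →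
      G51.Adj (Sum.inr (g, k)) (Sum.inr (g, l)) := by
    intro g k l h
    show (decide (g = g) && edgeB k l) = true
    simp [h]
  have h1 : ∀ (g : Gd) (k : Fin 8), G51.Reachable (Sum.inr (g, 1)) (Sum.inr (g, k)) := by
    intro g k
    rcases hp k with rfl | h | ⟨j, h, h'⟩ | ⟨j, m, h, h', h''⟩
    · exact SimpleGraph.Reachable.refl _
    · exact (hadj g _ _ h).reachable
    · exact (hadj g _ _ h).reachable.trans (hadj g _ _ h').reachable
    · exact ((hadj g _ _ h).reachable.trans (hadj g _ _ h').reachable).trans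
        (hadj g _ _ h'').reachable
  have h2 : ∀ g : Gd, G51.Reachable (Sum.inl g.1) (Sum.inr (g, 1)) := fun g =>
    SimpleGraph.Adj.reachable (by exact (toC_t g).1)
  have h3 : ∀ g : Gd, G51.Reachable (Sum.inl (g.1 + 1)) (Sum.inr (g, 5)) := fun g =>
    SimpleGraph.Adj.reachable (by exact (toC_s g).1)
  have h4 : ∀ p : Fin 3, G51.Reachable (Sum.inl p) (Sum.inl (p + 1)) := fun p =>
    ((h2 (p, 0)).trans (h1 (p, 0) 5)).trans (h3 (p, 0)).symm
  have h5 : ∀ p : Fin 3, G51.Reachable (Sum.inl 0) (Sum.inl p) := by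
    intro p
    fin_cases p
    · exact SimpleGraph.Reachable.refl _
    · exact h4 0
    · exact (h4 0).trans (h4 1)
  have hr : ∀ a : V51, G51.Reachable (Sum.inl 0) a := by
    intro a
    match a with
    | Sum.inl i => exact h5 i
    | Sum.inr (g, k) => exact ((h5 g.1).trans (h2 g)).trans (h1 g k)
  have : Nonempty V51 := ⟨Sum.inl 0⟩
  exact ⟨fun a b => (hr a).symm.trans (hr b)⟩

/-- Question 1 has a negative answer: there is a connected graph `G` with 51 vertices with
`M(G) ≤ 11` and `ft(G) ≥ 12`; in particular `M(G) ≥ ft(G)` is false in general. -/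
theorem result :
    (Fintype.card V51 = 51 ∧ G51.Connected ∧ maxNullity G51 ≤ 11 ∧ 12 ≤ fortNumber G51) ∧
    ¬ ∀ (V : Type) [Fintype V] [Nonempty V] (G : SimpleGraph V), fortNumber G ≤ maxNullity G := by
  refine ⟨⟨by simp, connected, upper, ft_ge⟩, fun h => ?_⟩
  have h1 := h V51 G51
  have h2 := upper
  have h3 := ft_ge
  omega

end Pool.Agent.Results.MP_7a0e32_co.FortNumber
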